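import Mathlib

/-!
Finite product probability spaces, written as weighted finite sums, and the symmetric
local lemma for events that depend on sets of coordinates.
-/

set_option autoImplicit false

namespace Pool.Agent.MP_d802e4_co

open Finset

noncomputable section

open Classical in
/-- indicator of a proposition -/
def ind (P : Prop) : ℝ := if P then 1 else 0

lemma ind_nonneg (P : Prop) : 0 ≤ ind P := by unfold ind; split_ifs <;> norm_num
lemma ind_le_one (P : Prop) : ind P ≤ 1 := by unfold ind; split_ifs <;> norm_num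
lemma ind_pos {P : Prop} (h : P) : ind P = 1 := by unfold ind; simp [h]
lemma ind_neg {P : Prop} (h : ¬ P) : ind P = 0 := by unfold ind; simp [h]
lemma ind_and (P Q : Prop) : ind (P ∧ Q) = ind P * ind Q := by
  by_cases hP : P <;> by_cases hQ : Q <;> simp [ind, hP, hQ]
lemma ind_mono {P Q : Prop} (h : P → Q) : ind P ≤ ind Q := by
  by_cases hP : P
  · rw [ind_pos hP, ind_pos (h hP)]
  · rw [ind_neg hP]; exact ind_nonneg _
lemma ind_congr {P Q : Prop} (h : P ↔ Q) : ind P = ind Q := by rw [propext h]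
lemma ind_not (P : Prop) : ind (¬ P) = 1 - ind P := by
  by_cases hP : P <;> simp [ind, hP]

variable {V Λ : Type*} [Fintype V] [DecidableEq V] [Fintype Λ]

/-- a probability vector -/
structure IsP (p : Λ → ℝ) : Prop where
  nonneg : ∀ a, 0 ≤ p a
  sum : ∑ a, p a = 1

/-- product weight -/
def wt (p : Λ → ℝ) (ω : V → Λ) : ℝ := ∏ v, p (ω v)

/-- expectation -/
def Ex (p : Λ → ℝ) (f : (V → Λ) → ℝ) : ℝ := ∑ ω, wt p ω * f ω

/-- probability -/
def Pr (p : Λ → ℝ) (E : (V → Λ) → Prop) : ℝ := Ex p (fun ω => ind (E ω))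

/-- dependence on the coordinates in `A` only -/
def Dep {α : Type*} (A : Set V) (f : (V → Λ) → α) : Prop :=
  ∀ ω ω' : V → Λ, (∀ v ∈ A, ω v = ω' v) → f ω = f ω'

variable {p : Λ → ℝ}

omit [DecidableEq V] in
lemma wt_nonneg (hp : IsP p) (ω : V → Λ) : 0 ≤ wt p ω :=
  Finset.prod_nonneg fun _ _ => hp.nonneg _

lemma sum_wt (hp : IsP p) : ∑ ω : V → Λ, wt p ω = 1 := by
  unfold wt
  have := Finset.prod_univ_sum (fun _ : V => (univ : Finset Λ)) (fun _ a => p a)
  simp only [Fintype.piFinset_univ] at this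
  rw [← this]
  simp [hp.sum]

lemma Ex_const (hp : IsP p) (c : ℝ) : Ex p (fun _ : V → Λ => c) = c := by
  unfold Ex; rw [← Finset.sum_mul, sum_wt hp, one_mul]

lemma Ex_mono (hp : IsP p) {f g : (V → Λ) → ℝ} (h : ∀ ω, f ω ≤ g ω) : Ex p f ≤ Ex p g :=
  Finset.sum_le_sum fun ω _ => mul_le_mul_of_nonneg_left (h ω) (wt_nonneg hp ω)

lemma Ex_nonneg (hp : IsP p) {f : (V → Λ) → ℝ} (h : ∀ ω, 0 ≤ f ω) : 0 ≤ Ex p f :=
  Finset.sum_nonneg fun ω _ => mul_nonneg (wt_nonneg hp ω) (h ω)

lemma Ex_add (f g : (V → Λ) → ℝ) : Ex p (fun ω => f ω + g ω) = Ex p f + Ex p g := by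
  unfold Ex; simp [mul_add, Finset.sum_add_distrib]

lemma Ex_sub (f g : (V → Λ) → ℝ) : Ex p (fun ω => f ω - g ω) = Ex p f - Ex p g := by
  unfold Ex; simp [mul_sub, Finset.sum_sub_distrib]

lemma Ex_smul (c : ℝ) (f : (V → Λ) → ℝ) : Ex p (fun ω => c * f ω) = c * Ex p f := by
  unfold Ex; rw [Finset.mul_sum]; exact Finset.sum_congr rfl fun ω _ => by ring

lemma Ex_sum {ι : Type*} (s : Finset ι) (f : ι → (V → Λ) → ℝ) :
    Ex p (fun ω => ∑ i ∈ s, f i ω) = ∑ i ∈ s, Ex p (f i) := by
  unfold Ex; simp only [Finset.mul_sum]; rw [Finset.sum_comm]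

lemma Ex_congr {f g : (V → Λ) → ℝ} (h : ∀ ω, f ω = g ω) : Ex p f = Ex p g := by
  rw [show f = g from funext h]

omit [Fintype V] [DecidableEq V] [Fintype Λ] in
lemma Dep.mono {α : Type*} {A B : Set V} {f : (V → Λ) → α} (h : Dep A f) (hAB : A ⊆ B) :
    Dep B f := fun ω ω' hω => h ω ω' fun v hv => hω v (hAB hv)

omit [Fintype V] [DecidableEq V] [Fintype Λ] in
lemma Dep.comp {α β : Type*} {A : Set V} {f : (V → Λ) → α} (h : Dep A f) (g : α → β) :
    Dep A (fun ω => g (f ω)) := fun ω ω' hω => by simp only [h ω ω' hω]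

omit [Fintype V] [DecidableEq V] [Fintype Λ] in
lemma Dep.ind {A : Set V} {E : (V → Λ) → Prop} (h : Dep A E) :
    Dep A (fun ω => ind (E ω)) := h.comp _

lemma Ex_mul (hp : IsP p) {A B : Set V} {f g : (V → Λ) → ℝ} (hf : Dep A f) (hg : Dep B g)
    (hAB : Disjoint A B) : Ex p (fun ω => f ω * g ω) = Ex p f * Ex p g := by
  classical
  let mix : (V → Λ) → (V → Λ) → (V → Λ) := fun ω ω' v => if v ∈ A then ω v else ω' v
  let e : ((V → Λ) × (V → Λ)) ≃ ((V → Λ) × (V → Λ)) :=
    { toFun := fun x => (mix x.1 x.2, mix x.2 x.1)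
      invFun := fun x => (mix x.1 x.2, mix x.2 x.1)
      left_inv := fun x => by
        ext v <;> by_cases hv : v ∈ A <;> simp [mix, hv]
      right_inv := fun x => by
        ext v <;> by_cases hv : v ∈ A <;> simp [mix, hv] }
  have hw : ∀ ω ω', wt p (mix ω ω') * wt p (mix ω' ω) = wt p ω * wt p ω' := by
    intro ω ω'
    unfold wt
    rw [← Finset.prod_mul_distrib, ← Finset.prod_mul_distrib]
    refine Finset.prod_congr rfl fun v _ => ?_
    by_cases hv : v ∈ A <;> simp [mix, hv, mul_comm]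
  have h1 : Ex p f * Ex p g = ∑ x : (V → Λ) × (V → Λ), wt p x.1 * wt p x.2 * (f x.1 * g x.2) := by
    unfold Ex
    rw [Finset.sum_mul_sum, ← Finset.univ_product_univ, Finset.sum_product]
    exact Finset.sum_congr rfl fun ω _ => Finset.sum_congr rfl fun ω' _ => by ring
  have h2 : Ex p (fun ω => f ω * g ω) =
      ∑ x : (V → Λ) × (V → Λ), wt p x.1 * wt p x.2 * (f x.1 * g x.1) := by
    rw [← Finset.univ_product_univ, Finset.sum_product]
    unfold Ex
    refine Finset.sum_congr rfl fun ω _ => ?_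
    have : ∑ ω' : V → Λ, wt p ω * wt p ω' * (f ω * g ω) =
        (∑ ω' : V → Λ, wt p ω') * (wt p ω * (f ω * g ω)) := by
      rw [Finset.sum_mul]; exact Finset.sum_congr rfl fun ω' _ => by ring
    simp only [this, sum_wt hp, one_mul]
  rw [h1, h2, ← Equiv.sum_comp e]
  refine Finset.sum_congr rfl fun x _ => ?_
  have ha : f (mix x.1 x.2) = f x.1 := hf _ _ fun v hv => by simp [mix, hv]
  have hb : g (mix x.1 x.2) = g x.2 := hg _ _ fun v hv => by
    have : v ∉ A := fun hA => Set.disjoint_left.1 hAB hA hv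
    simp [mix, this]
  show wt p (mix x.1 x.2) * wt p (mix x.2 x.1) * (f (mix x.1 x.2) * g (mix x.1 x.2)) = _
  rw [hw, ha, hb]

lemma Ex_shift (e : Λ ≃ Λ) (he : ∀ a, p (e a) = p a) (f : (V → Λ) → ℝ) :
    Ex p (fun ω => f (fun v => e (ω v))) = Ex p f := by
  unfold Ex
  rw [← Equiv.sum_comp (Equiv.piCongrRight (fun _ : V => e)) (fun ω => wt p ω * f ω)]
  refine Finset.sum_congr rfl fun ω _ => ?_
  have : wt p ((Equiv.piCongrRight (fun _ : V => e)) ω) = wt p ω := by
    unfold wt; exact Finset.prod_congr rfl fun v _ => by simp [he]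
  rw [this]; rfl

lemma Ex_coord (hp : IsP p) (v : V) (h : Λ → ℝ) :
    Ex p (fun ω : V → Λ => h (ω v)) = ∑ a, p a * h a := by
  classical
  unfold Ex wt
  have := Finset.prod_univ_sum (fun _ : V => (univ : Finset Λ))
    (fun u a => if u = v then p a * h a else p a)
  simp only [Fintype.piFinset_univ] at this
  have h2 : ∏ u : V, ∑ a : Λ, (if u = v then p a * h a else p a) = ∑ a, p a * h a := by
    rw [Finset.prod_eq_single v]
    · simp
    · intro u _ hu; simp [hu, hp.sum]
    · simp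
  rw [← h2, this]
  refine Finset.sum_congr rfl fun ω _ => ?_
  have h3 : ∀ u, (if u = v then p (ω u) * h (ω u) else p (ω u)) =
      p (ω u) * (if u = v then h (ω v) else 1) := by
    intro u; by_cases hu : u = v <;> simp [hu]
  simp only [h3, Finset.prod_mul_distrib]
  simp

lemma Pr_nonneg (hp : IsP p) (E : (V → Λ) → Prop) : 0 ≤ Pr p E :=
  Ex_nonneg hp fun _ => ind_nonneg _

lemma Pr_le_one (hp : IsP p) (E : (V → Λ) → Prop) : Pr p E ≤ 1 := by
  rw [← Ex_const (V := V) hp 1]; exact Ex_mono hp fun _ => ind_le_one _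

lemma Pr_mono (hp : IsP p) {E F : (V → Λ) → Prop} (h : ∀ ω, E ω → F ω) : Pr p E ≤ Pr p F :=
  Ex_mono hp fun ω => ind_mono (h ω)

lemma Pr_congr {E F : (V → Λ) → Prop} (h : ∀ ω, E ω ↔ F ω) : Pr p E = Pr p F :=
  Ex_congr fun ω => ind_congr (h ω)

lemma Pr_and (hp : IsP p) {A B : Set V} {E F : (V → Λ) → Prop} (hE : Dep A E) (hF : Dep B F)
    (hAB : Disjoint A B) : Pr p (fun ω => E ω ∧ F ω) = Pr p E * Pr p F := by
  unfold Pr
  rw [← Ex_mul hp hE.ind hF.ind hAB]
  exact Ex_congr fun ω => ind_and _ _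

lemma Pr_or (hp : IsP p) (E F : (V → Λ) → Prop) :
    Pr p (fun ω => E ω ∨ F ω) ≤ Pr p E + Pr p F := by
  unfold Pr
  rw [← Ex_add]
  refine Ex_mono hp fun ω => ?_
  by_cases hE : E ω
  · rw [ind_pos hE]; linarith [ind_le_one (E ω ∨ F ω), ind_nonneg (F ω)]
  · rw [ind_neg hE, ind_congr (show (E ω ∨ F ω) ↔ F ω by simp [hE])]; simp

lemma Pr_exists (hp : IsP p) {ι : Type*} (s : Finset ι) (E : ι → (V → Λ) → Prop) :
    Pr p (fun ω => ∃ i ∈ s, E i ω) ≤ ∑ i ∈ s, Pr p (E i) := by
  unfold Pr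
  rw [← Ex_sum]
  refine Ex_mono hp fun ω => ?_
  by_cases h : ∃ i ∈ s, E i ω
  · obtain ⟨i, hi, hE⟩ := h
    refine (ind_le_one _).trans ?_
    rw [← ind_pos hE]
    exact Finset.single_le_sum (f := fun i => ind (E i ω)) (fun j _ => ind_nonneg _) hi
  · rw [ind_neg h]; exact Finset.sum_nonneg fun _ _ => ind_nonneg _

lemma Pr_true (hp : IsP p) : Pr p (fun _ : V → Λ => True) = 1 := by
  unfold Pr; simp only [ind_pos trivial]; exact Ex_const hp 1

lemma Pr_false : Pr p (fun _ : V → Λ => False) = 0 := by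
  unfold Pr Ex; simp [ind]

lemma exists_of_Pr_pos {E : (V → Λ) → Prop} (h : 0 < Pr p E) : ∃ ω, E ω := by
  by_contra hne
  push Not at hne
  rw [Pr_congr (F := fun _ => False) (fun ω => by simp [hne ω]), Pr_false] at h
  exact lt_irrefl _ h

lemma Pr_split (E F : (V → Λ) → Prop) :
    Pr p (fun ω => E ω ∧ ¬ F ω) = Pr p E - Pr p (fun ω => F ω ∧ E ω) := by
  unfold Pr
  rw [← Ex_sub]
  refine Ex_congr fun ω => ?_
  rw [ind_and, ind_and, ind_not]; ring

/-- product rule over a finite family with pairwise disjoint supports -/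
lemma Pr_forall (hp : IsP p) {ι : Type*} (s : Finset ι) (A : ι → Set V)
    (E : ι → (V → Λ) → Prop) (hE : ∀ i ∈ s, Dep (A i) (E i))
    (hA : ∀ i ∈ s, ∀ j ∈ s, i ≠ j → Disjoint (A i) (A j)) :
    Pr p (fun ω => ∀ i ∈ s, E i ω) = ∏ i ∈ s, Pr p (E i) := by
  classical
  induction s using Finset.induction_on with
  | empty => simp [Pr_true hp]
  | insert a s ha ih =>
    rw [Finset.prod_insert ha, ← ih (fun i hi => hE i (by simp [hi]))
      (fun i hi j hj => hA i (by simp [hi]) j (by simp [hj]))]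
    rw [← Pr_and hp (hE a (by simp)) (B := ⋃ i ∈ s, A i)]
    · exact Pr_congr fun ω => by simp
    · intro ω ω' h
      apply propext
      refine forall_congr' fun i => forall_congr' fun hi => ?_
      rw [hE i (by simp [hi]) ω ω' fun v hv => h v (Set.mem_biUnion hi hv)]
    · simp only [Set.disjoint_iUnion_right]
      intro i hi
      exact hA a (by simp) i (by simp [hi]) (fun h => ha (h ▸ hi))

open Classical in
/-- the symmetric local lemma -/
theorem local_lemma (hp : IsP p) {ι : Type*} (I : Finset ι) (A : ι → Set V)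
    (E : ι → (V → Λ) → Prop) (q : ℝ) (D : ℕ) (hD : 1 ≤ D) (hq0 : 0 ≤ q)
    (hE : ∀ i ∈ I, Dep (A i) (E i)) (hq : ∀ i ∈ I, Pr p (E i) ≤ q)
    (hN : ∀ i ∈ I, (I.filter (fun j => ¬ Disjoint (A i) (A j))).card ≤ D)
    (h4 : 4 * q * D ≤ 1) : ∃ ω, ∀ i ∈ I, ¬ E i ω := by
  have key : ∀ n : ℕ, ∀ S : Finset ι, S.card = n → S ⊆ I → ∀ i ∈ I,
      Pr p (fun ω => E i ω ∧ ∀ j ∈ S, ¬ E j ω) ≤ 2 * q * Pr p (fun ω => ∀ j ∈ S, ¬ E j ω) := by
    intro n
    induction n using Nat.strong_induction_on with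
    | _ n ih =>
      intro S hS hSI i hi
      set S1 := S.filter (fun j => ¬ Disjoint (A i) (A j)) with hS1
      set S2 := S.filter (fun j => Disjoint (A i) (A j)) with hS2
      have hind : Pr p (fun ω => E i ω ∧ ∀ j ∈ S2, ¬ E j ω) =
          Pr p (E i) * Pr p (fun ω => ∀ j ∈ S2, ¬ E j ω) := by
        refine Pr_and hp (hE i hi) (B := ⋃ j ∈ S2, A j) ?_ ?_
        · intro ω ω' h
          apply propext
          refine forall_congr' fun j => forall_congr' fun hj => ?_
          rw [hE j (hSI (Finset.mem_filter.1 hj).1) ω ω' fun v hv => h v (Set.mem_biUnion hj hv)]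
        · simp only [Set.disjoint_iUnion_right]
          intro j hj
          exact (Finset.mem_filter.1 hj).2
      have hN2 := Pr_nonneg hp (fun ω : V → Λ => ∀ j ∈ S2, ¬ E j ω)
      have h1 : Pr p (fun ω => E i ω ∧ ∀ j ∈ S, ¬ E j ω) ≤
          q * Pr p (fun ω => ∀ j ∈ S2, ¬ E j ω) := by
        refine le_trans (Pr_mono hp (F := fun ω => E i ω ∧ ∀ j ∈ S2, ¬ E j ω) ?_) ?_
        · exact fun ω h => ⟨h.1, fun j hj => h.2 j (Finset.mem_filter.1 hj).1⟩
        · rw [hind]; exact mul_le_mul_of_nonneg_right (hq i hi) hN2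
      have h2 : Pr p (fun ω => ∀ j ∈ S2, ¬ E j ω) ≤ 2 * Pr p (fun ω => ∀ j ∈ S, ¬ E j ω) := by
        by_cases hemp : S1 = ∅
        · have : S2 = S := by
            apply Finset.filter_true_of_mem
            intro j hj
            by_contra hc
            have : j ∈ S1 := Finset.mem_filter.2 ⟨hj, hc⟩
            simp [hemp] at this
          rw [this]; linarith [Pr_nonneg hp (fun ω : V → Λ => ∀ j ∈ S, ¬ E j ω)]
        · have hlt : S2.card < n := by
            rw [← hS]
            apply Finset.card_lt_card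
            refine ⟨Finset.filter_subset _ _, fun hsub => hemp ?_⟩
            rw [Finset.eq_empty_iff_forall_notMem]
            intro j hj
            have hj' := Finset.mem_filter.1 hj
            exact hj'.2 (Finset.mem_filter.1 (hsub hj'.1)).2
          have h3 : Pr p (fun ω => ∀ j ∈ S2, ¬ E j ω) ≤ Pr p (fun ω => ∀ j ∈ S, ¬ E j ω) +
              Pr p (fun ω => ∃ j ∈ S1, E j ω ∧ ∀ j ∈ S2, ¬ E j ω) := by
            refine le_trans (Pr_mono hp ?_) (Pr_or hp _ _)
            intro ω h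
            by_cases hc : ∀ j ∈ S, ¬ E j ω
            · exact Or.inl hc
            · right
              push Not at hc
              obtain ⟨j, hj, hEj⟩ := hc
              refine ⟨j, Finset.mem_filter.2 ⟨hj, fun hd => h j (Finset.mem_filter.2 ⟨hj, hd⟩) hEj⟩,
                hEj, h⟩
          have h5 := Pr_exists hp S1 (fun j ω => E j ω ∧ ∀ j ∈ S2, ¬ E j ω)
          have h6 : ∑ j ∈ S1, Pr p (fun ω => E j ω ∧ ∀ j ∈ S2, ¬ E j ω) ≤
              S1.card • (2 * q * Pr p (fun ω => ∀ j ∈ S2, ¬ E j ω)) := by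
            apply Finset.sum_le_card_nsmul
            intro j hj
            exact ih _ hlt S2 rfl ((Finset.filter_subset _ _).trans hSI) j
              (hSI (Finset.mem_filter.1 hj).1)
          have h7 : (S1.card : ℝ) ≤ D := by
            exact_mod_cast le_trans (Finset.card_le_card (Finset.filter_subset_filter _ hSI))
              (hN i hi)
          rw [nsmul_eq_mul] at h6
          have h8 : (S1.card : ℝ) * (2 * q * Pr p (fun ω => ∀ j ∈ S2, ¬ E j ω)) ≤
              (1 / 2) * Pr p (fun ω => ∀ j ∈ S2, ¬ E j ω) := by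
            have : (S1.card : ℝ) * (2 * q) ≤ 1 / 2 := by nlinarith
            nlinarith
          linarith
      nlinarith
  have hq2 : 2 * q ≤ 1 / 2 := by
    have : (1 : ℝ) ≤ D := by exact_mod_cast hD
    nlinarith
  have pos : ∀ S : Finset ι, S ⊆ I → 0 < Pr p (fun ω => ∀ j ∈ S, ¬ E j ω) := by
    intro S
    induction S using Finset.induction_on with
    | empty => intro _; simp [Pr_true hp]
    | insert a S ha ih =>
      intro hS
      have hS' : S ⊆ I := (Finset.subset_insert _ _).trans hS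
      have h1 := ih hS'
      have h2 := key _ S rfl hS' a (hS (by simp))
      have h3 := Pr_split (p := p) (fun ω : V → Λ => ∀ j ∈ S, ¬ E j ω) (E a)
      rw [Pr_congr (F := fun ω => (∀ j ∈ S, ¬ E j ω) ∧ ¬ E a ω) (fun ω => by simp [and_comm]), h3]
      nlinarith
  exact exists_of_Pr_pos (pos I subset_rfl)

end

end Pool.Agent.MP_d802e4_co
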